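import Pool.Agent.Run7.h68.Main

/-!
# The maximum genus of a bar `k`-visibility graph on `n` vertices is asymptotically `k n / 2`
-/

set_option autoImplicit false

open Run7.h68

/-- For all `k, n ≥ 1` the maximum genus `g_k(n)` of a bar `k`-visibility graph on `n` vertices is
attained and lies between `k (n - 2 k - 4) / 2` and
`k n / 2 + 140 k^(2/3) (1 + log k) n + 991 k^2`; in particular `g_k(n) = (1/2 + o(1)) k n` as `k`
and `n / k` tend to infinity. -/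
theorem Pool.Agent.Results.MP_275090_co.AsymptoticMaxGenus.result :
    (∀ k n : ℕ, 1 ≤ k → 1 ≤ n →
      (∀ G : SimpleGraph (Fin n), IsBarVisibility k G → EmbedsIn G (genus G)) ∧
      IsGreatest {g | ∃ G : SimpleGraph (Fin n), IsBarVisibility k G ∧ genus G = g}
        (maxGenus k n) ∧
      (k : ℝ) * (n - 2 * k - 4) / 2 ≤ maxGenus k n ∧
      (maxGenus k n : ℝ) ≤ (k : ℝ) * n / 2 +
        140 * ((k : ℝ) ^ (2 / 3 : ℝ) * (1 + Real.log k) * n) + 991 * (k : ℝ) ^ 2) ∧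
    ∀ ε : ℝ, 0 < ε → ∃ K : ℕ, ∀ k n : ℕ, K ≤ k → K * k ≤ n →
      |(maxGenus k n : ℝ) - (k : ℝ) * n / 2| ≤ ε * ((k : ℝ) * n) := by
  have hmain : ∀ k n : ℕ, 1 ≤ k → 1 ≤ n →
      (∀ G : SimpleGraph (Fin n), IsBarVisibility k G → EmbedsIn G (genus G)) ∧
      IsGreatest {g | ∃ G : SimpleGraph (Fin n), IsBarVisibility k G ∧ genus G = g}
        (maxGenus k n) ∧
      (k : ℝ) * (n - 2 * k - 4) / 2 ≤ maxGenus k n ∧
      (maxGenus k n : ℝ) ≤ (k : ℝ) * n / 2 +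
        140 * ((k : ℝ) ^ (2 / 3 : ℝ) * (1 + Real.log k) * n) + 991 * (k : ℝ) ^ 2 := by
    intro k n hk hn
    obtain ⟨γ, hγ, -⟩ := maxGenus_upper hk hn
    obtain ⟨h1, h2⟩ := main hk hn
    refine ⟨fun G hG => embeds_genus (hγ G hG), ?_, h1, h2⟩
    have hbound : ∀ g ∈ {g | ∃ G : SimpleGraph (Fin n), IsBarVisibility k G ∧ genus G = g},
        g ≤ γ := by
      rintro g ⟨G, hG, rfl⟩
      exact genus_le_of_embeds (hγ G hG)
    obtain ⟨G, hG, -⟩ := exists_lower_graph k n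
    exact ⟨Nat.sSup_mem ⟨genus G, G, hG, rfl⟩ ⟨γ, hbound⟩, fun g hg => le_csSup ⟨γ, hbound⟩ hg⟩
  refine ⟨hmain, ?_⟩
  intro ε hε
  obtain ⟨K1, hK1⟩ := exists_nat_ge ((1960 / ε) ^ (6 : ℝ))
  obtain ⟨K2, hK2⟩ := exists_nat_ge (1982 / ε)
  refine ⟨K1 + K2 + 1, ?_⟩
  intro k n hk hn
  have hk1 : 1 ≤ k := by omega
  have hn1 : 1 ≤ n := by
    have : 1 * 1 ≤ (K1 + K2 + 1) * k := Nat.mul_le_mul (by omega) hk1
    omega
  obtain ⟨-, -, h1, h2⟩ := hmain k n hk1 hn1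
  have hkr : (1 : ℝ) ≤ k := by exact_mod_cast hk1
  have hnr : (1 : ℝ) ≤ n := by exact_mod_cast hn1
  have hkn : (K2 : ℝ) * k ≤ n := by
    have h3 : K2 * k ≤ n := (Nat.mul_le_mul_right k (by omega)).trans hn
    exact_mod_cast h3
  have hk2 : 1982 * (k : ℝ) ≤ ε * n := by
    have h3 : 1982 ≤ ε * K2 := by
      rw [div_le_iff₀ hε] at hK2
      linarith
    calc 1982 * (k : ℝ) ≤ (ε * K2) * k := mul_le_mul_of_nonneg_right h3 (by linarith)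
      _ = ε * (K2 * k) := by ring
      _ ≤ ε * n := mul_le_mul_of_nonneg_left hkn hε.le
  have hk3 : 1982 * (k : ℝ) ^ 2 ≤ ε * (k * n) := by
    have h3 := mul_le_mul_of_nonneg_left hk2 (show (0 : ℝ) ≤ k by linarith)
    calc 1982 * (k : ℝ) ^ 2 = k * (1982 * k) := by ring
      _ ≤ k * (ε * n) := h3
      _ = ε * (k * n) := by ring
  have hlog : 1 + Real.log k ≤ 7 * (k : ℝ) ^ (1 / 6 : ℝ) := by
    have h3 := Real.log_le_rpow_div (show (0 : ℝ) ≤ k by linarith) (show (0 : ℝ) < 1 / 6 by norm_num)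
    have h4 : (1 : ℝ) ≤ (k : ℝ) ^ (1 / 6 : ℝ) := Real.one_le_rpow hkr (by norm_num)
    linarith
  have hroot : 1960 / ε ≤ (k : ℝ) ^ (1 / 6 : ℝ) := by
    have h3 : (1960 / ε) ^ (6 : ℝ) ≤ k := by
      have : (K1 : ℝ) ≤ k := by exact_mod_cast (show K1 ≤ k by omega)
      linarith
    have h4 : (0 : ℝ) ≤ 1960 / ε := by positivity
    have h5 := Real.rpow_le_rpow (by positivity) h3 (show (0 : ℝ) ≤ 1 / 6 by norm_num)
    rw [← Real.rpow_mul h4] at h5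
    norm_num at h5
    exact h5
  have hsmall : 140 * ((k : ℝ) ^ (2 / 3 : ℝ) * (1 + Real.log k)) ≤ ε / 2 * k := by
    have h3 : (k : ℝ) = (k : ℝ) ^ (2 / 3 : ℝ) * (k : ℝ) ^ (1 / 6 : ℝ) * (k : ℝ) ^ (1 / 6 : ℝ) := by
      rw [← Real.rpow_add (by linarith), ← Real.rpow_add (by linarith)]
      norm_num
    have h4 : (0 : ℝ) ≤ (k : ℝ) ^ (2 / 3 : ℝ) := by positivity
    have h5 : (0 : ℝ) ≤ (k : ℝ) ^ (1 / 6 : ℝ) := by positivity
    have h6 : 1960 ≤ ε * (k : ℝ) ^ (1 / 6 : ℝ) := by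
      rw [div_le_iff₀ hε] at hroot
      linarith
    have h7 := mul_le_mul_of_nonneg_left hlog h4
    have h8 := mul_le_mul_of_nonneg_left h6 (mul_nonneg h4 h5)
    calc 140 * ((k : ℝ) ^ (2 / 3 : ℝ) * (1 + Real.log k))
        ≤ 140 * ((k : ℝ) ^ (2 / 3 : ℝ) * (7 * (k : ℝ) ^ (1 / 6 : ℝ))) := by linarith
      _ = 1 / 2 * ((k : ℝ) ^ (2 / 3 : ℝ) * (k : ℝ) ^ (1 / 6 : ℝ) * 1960) := by ring
      _ ≤ 1 / 2 * ((k : ℝ) ^ (2 / 3 : ℝ) * (k : ℝ) ^ (1 / 6 : ℝ) *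
          (ε * (k : ℝ) ^ (1 / 6 : ℝ))) := by linarith
      _ = ε / 2 * ((k : ℝ) ^ (2 / 3 : ℝ) * (k : ℝ) ^ (1 / 6 : ℝ) *
          (k : ℝ) ^ (1 / 6 : ℝ)) := by ring
      _ = ε / 2 * k := by rw [← h3]
  have hsmall2 := mul_le_mul_of_nonneg_right hsmall (show (0 : ℝ) ≤ n by linarith)
  rw [abs_le]
  constructor
  · nlinarith
  · nlinarith
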