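import Pool.Agent.Run7.h68.OneLower

/-!
# The Euler bound is not asymptotically sharp for bar `1`-visibility graphs
-/

set_option autoImplicit false

open Run7.h68

/-- For every `n ≥ 1` the maximum genus `g_1(n)` of a bar `1`-visibility graph on `n` vertices is
attained and is at least `9 n / 16 - 5 √n`. -/
theorem Pool.Agent.Results.MP_275090_co.BarOneLower.result :
    ∀ n : ℕ, 1 ≤ n →
      (9 / 16 : ℝ) * n - 5 * Real.sqrt n ≤ maxGenus 1 n ∧
      ∃ G : SimpleGraph (Fin n), IsBarVisibility 1 G ∧ EmbedsIn G (genus G) ∧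
        genus G = maxGenus 1 n := by
  intro n hn
  refine ⟨maxGenus_one_lower hn, ?_⟩
  obtain ⟨γ, hγ, -⟩ := maxGenus_upper (k := 1) one_pos hn
  obtain ⟨G0, hG0, -⟩ := exists_lower_graph 1 n
  have hmem : maxGenus 1 n ∈ {g | ∃ G : SimpleGraph (Fin n), IsBarVisibility 1 G ∧ genus G = g} := by
    have hne : {g | ∃ G : SimpleGraph (Fin n), IsBarVisibility 1 G ∧ genus G = g}.Nonempty :=
      ⟨genus G0, G0, hG0, rfl⟩
    have hbd : BddAbove {g | ∃ G : SimpleGraph (Fin n), IsBarVisibility 1 G ∧ genus G = g} := by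
      refine ⟨γ, ?_⟩
      rintro g ⟨G, hG, rfl⟩
      exact genus_le_of_embeds (hγ G hG)
    exact Nat.sSup_mem hne hbd
  obtain ⟨G, hG, h⟩ := hmem
  exact ⟨G, hG, embeds_genus (hγ G hG), h⟩
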