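import Pool.Agent.Run7.h68.Uniform

/-!
# The maximum genus of a bar `k`-visibility graph up to lower order terms
-/

set_option autoImplicit false

open Run7.h68

/-- Let `f k n = n² / 12` for `n ≤ 4 k` and `f k n = k (3 n - 4 k) / 6` for `n > 4 k`. For all
`k, n ≥ 1` the maximum genus `g_k(n)` of a bar `k`-visibility graph on `n` vertices is attained and
`f k n - n ≤ g_k(n) ≤ f k n + 14000000 · min(k, n)^(5/6) · n`; consequently `g_k(n)` is
asymptotically equal to `f k n` as `k` and `n` tend to infinity. -/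
theorem Pool.Agent.Results.MP_275090_co.UniformAsymptotics.result :
    (∀ k n : ℕ, 1 ≤ k → 1 ≤ n →
      (∀ G : SimpleGraph (Fin n), IsBarVisibility k G → EmbedsIn G (genus G)) ∧
      IsGreatest {g | ∃ G : SimpleGraph (Fin n), IsBarVisibility k G ∧ genus G = g}
        (maxGenus k n) ∧
      mainTerm k n - n ≤ maxGenus k n ∧
      (maxGenus k n : ℝ) ≤
        mainTerm k n + 14000000 * ((min k n : ℕ) : ℝ) ^ (5 / 6 : ℝ) * n) ∧
    ∀ ε : ℝ, 0 < ε → ∃ K : ℕ, ∀ k n : ℕ, K ≤ k → K ≤ n →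
      |(maxGenus k n : ℝ) - mainTerm k n| ≤ ε * mainTerm k n := by
  refine ⟨?_, fun ε hε => mainTerm_asymp hε⟩
  intro k n hk hn
  obtain ⟨γ, hγ, -⟩ := maxGenus_upper (k := k) (n := n) hk hn
  refine ⟨fun G hG => embeds_genus (hγ G hG), ?_, mainTerm_lower hk hn, mainTerm_upper hk hn⟩
  have hbound : ∀ g ∈ {g | ∃ G : SimpleGraph (Fin n), IsBarVisibility k G ∧ genus G = g},
      g ≤ γ := by
    rintro g ⟨G, hG, rfl⟩
    exact genus_le_of_embeds (hγ G hG)
  obtain ⟨G, hG, -⟩ := exists_lower_graph k n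
  exact ⟨Nat.sSup_mem ⟨genus G, G, hG, rfl⟩ ⟨γ, hbound⟩, fun g hg => le_csSup ⟨γ, hbound⟩ hg⟩
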